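import Pool.Agent.helper61.Y2.Spec

set_option autoImplicit false

namespace H61.Y2

open H61.Yorioka Cardinal

theorem AVO_card (t : List Bool) (l : ℕ) (h : t.length ≤ l) :
    ((level l).filter (fun p => t <+: p)).card = 2 ^ (l - t.length) := by
  have h1 : (level l).filter (fun p => t <+: p) = (level (l - t.length)).image (fun s => t ++ s) := by
    ext p
    rw [Finset.mem_filter, Finset.mem_image, mem_level]
    constructor
    · rintro ⟨h2, s, rfl⟩
      refine ⟨s, ?_, rfl⟩
      rw [mem_level]
      rw [List.length_append] at h2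
      omega
    · rintro ⟨s, hs, rfl⟩
      rw [mem_level] at hs
      refine ⟨?_, List.prefix_append _ _⟩
      rw [List.length_append]
      omega
  rw [h1, Finset.card_image_of_injective _ (List.append_right_injective t), card_level]

theorem AVO : AVO_stmt := by
  classical
  intro T q l R hq hl hc
  set n : ℕ := 2 ^ (l - q.length) with hn
  have hn1 : 1 ≤ n := Nat.one_le_two_pow
  set P : Finset (List Bool) := (level l).filter (fun p => q <+: p) with hP
  have hPc : P.card = n := AVO_card q l hl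
  -- the second kind
  set G : Finset (List Bool) := ((Finset.range R).biUnion level).filter (fun t => t ∈ T) with hG
  have hGm : ∀ t, t ∈ G ↔ t ∈ T ∧ t.length < R := by
    intro t
    rw [hG, Finset.mem_filter, Finset.mem_biUnion]
    constructor
    · rintro ⟨⟨i, hi, hi2⟩, ht⟩
      rw [mem_level] at hi2
      rw [Finset.mem_range] at hi
      exact ⟨ht, by omega⟩
    · rintro ⟨ht, ht2⟩
      exact ⟨⟨t.length, Finset.mem_range.2 ht2, mem_level.2 rfl⟩, ht⟩
  have hGc : G.card = cn T R := by
    unfold cn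
    rw [← Set.ncard_coe_finset]
    congr 1
    ext t
    exact hGm t
  set B2 : Finset (List Bool) := G.image (fun t => t.take l) with hB2
  have hB2c : B2.card ≤ cn T R := by
    rw [← hGc]
    exact Finset.card_image_le
  -- the first kind
  set F : Finset (List Bool) := ((Finset.range (l + 1)).biUnion level).filter
    (fun t => t ∈ T ∧ q <+: t ∧ q.length < t.length) with hF
  have hFm : ∀ t, t ∈ F ↔ t.length ≤ l ∧ t ∈ T ∧ q <+: t ∧ q.length < t.length := by
    intro t
    rw [hF, Finset.mem_filter, Finset.mem_biUnion]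
    constructor
    · rintro ⟨⟨i, hi, hi2⟩, ht⟩
      rw [mem_level] at hi2
      rw [Finset.mem_range] at hi
      exact ⟨by omega, ht⟩
    · rintro ⟨ht, ht2⟩
      exact ⟨⟨t.length, Finset.mem_range.2 (by omega), mem_level.2 rfl⟩, ht2⟩
  set B1 : Finset (List Bool) := F.biUnion (fun t => (level l).filter (fun p => t <+: p)) with hB1
  have hB1c : 4 * B1.card ≤ n := by
    have h1 : B1.card ≤ ∑ t ∈ F, 2 ^ (l - t.length) := by
      refine Finset.card_biUnion_le.trans ?_
      refine Finset.sum_le_sum fun t ht => ?_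
      rw [AVO_card t l ((hFm t).1 ht).1]
    have h2 := hq F (fun t ht => ((hFm t).1 ht).2)
    have h3 : ((∑ t ∈ F, 2 ^ (l - t.length) : ℕ) : ℝ) = 2 ^ l * ∑ t ∈ F, (1 / 2 : ℝ) ^ t.length := by
      push_cast
      rw [Finset.mul_sum]
      refine Finset.sum_congr rfl fun t ht => ?_
      have h4 := ((hFm t).1 ht).1
      rw [pow_sub₀ _ (by norm_num) h4, one_div, inv_pow]
    have h4 : (n : ℝ) = 2 ^ l * (1 / 2 : ℝ) ^ q.length := by
      rw [hn]
      push_cast
      rw [pow_sub₀ _ (by norm_num) hl, one_div, inv_pow]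
    have h5 : ((4 * B1.card : ℕ) : ℝ) ≤ (n : ℝ) := by
      have h6 : (B1.card : ℝ) ≤ ((∑ t ∈ F, 2 ^ (l - t.length) : ℕ) : ℝ) := by exact_mod_cast h1
      rw [h3] at h6
      push_cast
      rw [h4]
      have h7 : (0 : ℝ) < 2 ^ l := by positivity
      nlinarith
    exact_mod_cast h5
  have h1 : (B1 ∪ B2).card < P.card := by
    have h2 := Finset.card_union_le B1 B2
    omega
  obtain ⟨p, hp, hp2⟩ := Finset.exists_mem_notMem_of_card_lt_card h1
  rw [hP, Finset.mem_filter, mem_level] at hp
  rw [Finset.notMem_union] at hp2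
  refine ⟨p, hp.1, hp.2, fun t ht ht1 ht2 => ⟨fun h3 => ?_, fun h3 => ?_⟩⟩
  · apply hp2.1
    rw [hB1, Finset.mem_biUnion]
    refine ⟨t, (hFm t).2 ⟨?_, ht, ?_, ht1⟩, ?_⟩
    · rw [← hp.1]
      exact h3.length_le
    · exact List.prefix_of_prefix_length_le hp.2 h3 ht1.le
    · rw [Finset.mem_filter, mem_level]
      exact ⟨hp.1, h3⟩
  · apply hp2.2
    rw [hB2, Finset.mem_image]
    refine ⟨t, (hGm t).2 ⟨ht, ht2⟩, ?_⟩
    rw [← hp.1]
    exact (List.prefix_iff_eq_take.1 h3).symm

end H61.Y2
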